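import Pool.Agent.Helper4.QT.LandOf
import Pool.Agent.Helper12.QT.LapF

/-!
Block QT3b: Landau's lemma applied to `C - σ F`.
-/

namespace Pool.Agent.QT

open Real Filter Topology MeasureTheory Set DirichletCharacter

theorem landau {q : ℕ} [NeZero q] {χ : DirichletCharacter ℂ q} {a : ℕ → ℝ} {σ C : ℝ} (h : Hyp χ a σ C) :
    (∀ x : ℝ, 0 < x → Integrable (fun t : ℝ => Real.exp (-(x * t)) * FF a t)) ∧
      (∀ z : ℂ, 0 < z.re → LFunction χ (1 / 2 + z) ≠ 0 ∧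
        ∫ t : ℝ, Complex.exp (-z * t) * (FF a t : ℂ) = GG χ z) ∧
      ∀ x : ℝ, 0 < x → 0 < ∫ t : ℝ, Real.exp (-(x * t)) * FF a t :=
  landau_of h (abs_FF_le h.dat) (measurable_FF a) (fun _ hz => laplace_F h.dat hz)

end Pool.Agent.QT
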