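import Pool.Agent.Helper96.QT.Def
import Pool.Agent.Helper63.QT.LandAbs

/-!
Block QT3b: Landau's lemma applied to `C - σ F`.
-/

namespace Pool.Agent.QT

open Real Filter Topology MeasureTheory Set DirichletCharacter

/-- `re L(2, chi) > 0` -/
private lemma L2_re_pos_h4 {q : ℕ} [NeZero q] (χ : DirichletCharacter ℂ q) : 0 < (LFunction χ 2).re := by
  have h1 : 1 < (2 : ℂ).re := by norm_num
  rw [LFunction_eq_LSeries χ h1]
  have hs : HasSum (LSeries.term (fun n : ℕ => χ n) 2) (LSeries (fun n : ℕ => χ n) 2) :=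
    (DirichletCharacter.LSeriesSummable_of_one_lt_re χ h1).hasSum
  have hr : HasSum (fun n : ℕ => (LSeries.term (fun n : ℕ => χ n) 2 n).re) (LSeries (fun n : ℕ => χ n) 2).re :=
    Complex.hasSum_re hs
  have h2 := hr.add hasSum_zeta_two
  have hb : ∀ n : ℕ, |(LSeries.term (fun n : ℕ => χ n) 2 n).re| ≤ 1 / (n : ℝ) ^ 2 := by
    intro n
    refine (Complex.abs_re_le_norm _).trans ?_
    rcases Nat.eq_zero_or_pos n with rfl | hn
    · simp
    · rw [LSeries.term_of_ne_zero hn.ne', norm_div]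
      have h3 : ‖(n : ℂ) ^ (2 : ℂ)‖ = (n : ℝ) ^ 2 := by
        rw [show (2 : ℂ) = ((2 : ℕ) : ℂ) by norm_num, Complex.cpow_natCast, norm_pow, Complex.norm_natCast]
      rw [h3]
      have h4 : ‖χ (n : ZMod q)‖ ≤ 1 := χ.norm_le_one _
      gcongr
  have h5 : (LSeries.term (fun n : ℕ => χ n) 2 1).re + 1 / ((1 : ℕ) : ℝ) ^ 2 ≤
      (LSeries (fun n : ℕ => χ n) 2).re + π ^ 2 / 6 := by
    refine le_hasSum h2 1 fun n _ => ?_
    have := neg_le_of_abs_le (hb n)
    linarith
  have h6 : LSeries.term (fun n : ℕ => χ n) 2 1 = 1 := by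
    rw [LSeries.term_of_ne_zero one_ne_zero]
    simp
  rw [h6] at h5
  have h7 : π < 3.15 := Real.pi_lt_d2
  have h8 : 0 < π := Real.pi_pos
  have h9 : π ^ 2 < 10 := by nlinarith
  simp at h5
  linarith

private lemma GG_pos_h4 {q : ℕ} [NeZero q] {χ : DirichletCharacter ℂ q} (hχ : χ ≠ 1) {a₀ : ℝ} (ha₀ : 0 ≤ a₀) (ha₁ : a₀ < 3 / 2)
    (hne : ∀ x : ℝ, a₀ < x → LFunction χ (1 / 2 + x) ≠ 0) (him : ∀ x : ℝ, a₀ < x → (GG χ x).im = 0) :
    ∀ x : ℝ, a₀ < x → 0 < (GG χ x).re := by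
  have hL : Continuous (fun x : ℝ => LFunction χ (1 / 2 + x)) :=
    (DirichletCharacter.differentiable_LFunction hχ).continuous.comp (by fun_prop)
  have hden : ∀ x : ℝ, a₀ < x → (1 / 2 + (x : ℂ)) * LFunction χ (1 / 2 + x) ≠ 0 := by
    intro x hx
    refine mul_ne_zero ?_ (hne x hx)
    intro h
    have := congrArg Complex.re h
    simp at this
    linarith
  have hc : ContinuousOn (fun x : ℝ => (GG χ x).re) (Ioi a₀) := by
    refine Complex.continuous_re.comp_continuousOn ?_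
    unfold GG
    refine ContinuousOn.div continuousOn_const (by fun_prop) fun x hx => hden x hx
  have hn0 : ∀ x : ℝ, a₀ < x → (GG χ x).re ≠ 0 := by
    intro x hx h0
    have : GG χ x = 0 := Complex.ext h0 (him x hx)
    unfold GG at this
    exact one_div_ne_zero (hden x hx) this
  have h32 : 0 < (GG χ ((3 / 2 : ℝ) : ℂ)).re := by
    unfold GG
    have h1 : (1 / 2 + ((3 / 2 : ℝ) : ℂ)) = 2 := by push_cast; norm_num
    rw [h1, one_div, Complex.inv_re]
    have h2 : (2 * LFunction χ 2).re = 2 * (LFunction χ 2).re := by simp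
    have h3 := L2_re_pos_h4 χ
    refine div_pos (by rw [h2]; linarith) ?_
    rw [Complex.normSq_pos]
    intro h
    rw [h] at h2
    simp at h2
    linarith
  intro x hx
  by_contra hneg
  rw [not_lt] at hneg
  have hsub : uIcc x (3 / 2) ⊆ Ioi a₀ := by
    intro y hy
    rw [mem_uIcc] at hy
    rcases hy with hy | hy
    · exact lt_of_lt_of_le hx hy.1
    · exact lt_of_lt_of_le ha₁ hy.1
  have h1 := intermediate_value_uIcc (hc.mono hsub)
  have h2 : (0 : ℝ) ∈ uIcc ((GG χ x).re) ((GG χ ((3 / 2 : ℝ) : ℂ)).re) := by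
    rw [mem_uIcc]
    exact Or.inl ⟨hneg, h32.le⟩
  obtain ⟨y, hy, hy0⟩ := h1 h2
  exact hn0 y (hsub hy) hy0

private lemma intg_cplx_h4 {f : ℝ → ℝ} (hf : Measurable f) {z : ℂ}
    (h : Integrable (fun t : ℝ => Real.exp (-(z.re * t)) * f t)) :
    Integrable (fun t : ℝ => Complex.exp (-z * t) * (f t : ℂ)) := by
  refine h.norm.mono' ?_ (ae_of_all _ fun t => ?_)
  · have h1 : Continuous fun t : ℝ => Complex.exp (-z * t) := by fun_prop
    exact h1.aestronglyMeasurable.mul (Complex.measurable_ofReal.comp hf).aestronglyMeasurable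
  · rw [norm_mul, norm_mul, Complex.norm_real, Complex.norm_exp, Real.norm_of_nonneg (Real.exp_pos _).le]
    simp

private lemma int_real_h4 (f : ℝ → ℝ) (x : ℝ) :
    ∫ t : ℝ, Complex.exp (-(x : ℂ) * t) * (f t : ℂ) = ((∫ t : ℝ, Real.exp (-(x * t)) * f t : ℝ) : ℂ) := by
  rw [← integral_complex_ofReal]
  refine integral_congr_ae (ae_of_all _ fun t => ?_)
  simp

/-- the step function -/
private noncomputable def stp_h4 (C t : ℝ) : ℝ := if 0 ≤ t then C else 0

private lemma stp_meas_h4 (C : ℝ) : Measurable (stp_h4 C) :=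
  Measurable.ite measurableSet_Ici measurable_const measurable_const

private lemma stp_intg_h4 (C : ℝ) {x : ℝ} (hx : 0 < x) : Integrable (fun t : ℝ => Real.exp (-(x * t)) * stp_h4 C t) := by
  have h1 : IntegrableOn (fun t : ℝ => Real.exp (-x * t) * C) (Ioi 0) :=
    (integrableOn_exp_mul_Ioi (by linarith : -x < 0) 0).mul_const C
  rw [← integrableOn_Ici_iff_integrableOn_Ioi, ← integrable_indicator_iff measurableSet_Ici] at h1
  refine h1.congr (ae_of_all _ fun t => ?_)
  unfold stp_h4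
  by_cases ht : 0 ≤ t
  · simp [indicator, ht]
  · simp [indicator, ht]

private lemma stp_int_h4 (C : ℝ) {z : ℂ} (hz : 0 < z.re) :
    ∫ t : ℝ, Complex.exp (-z * t) * (stp_h4 C t : ℂ) = C / z := by
  have h1 : (fun t : ℝ => Complex.exp (-z * t) * (stp_h4 C t : ℂ)) =
      indicator (Ici 0) (fun t : ℝ => Complex.exp (-z * t) * (C : ℂ)) := by
    funext t
    unfold stp_h4
    by_cases ht : 0 ≤ t
    · simp [indicator, ht]
    · simp [indicator, ht]
  rw [h1, integral_indicator measurableSet_Ici, integral_Ici_eq_integral_Ioi, integral_mul_const,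
    integral_exp_mul_complex_Ioi (by simpa using hz : (-z).re < 0)]
  have hz0 : z ≠ 0 := by
    rintro rfl
    simp at hz
  simp
  field_simp

theorem landau_of {q : ℕ} [NeZero q] {χ : DirichletCharacter ℂ q} {a : ℕ → ℝ} {σ C : ℝ} (h : Hyp χ a σ C)
    (H1 : ∀ t : ℝ, |FF a t| ≤ Real.exp (t / 2)) (H2 : Measurable (FF a))
    (H3 : ∀ z : ℂ, 1 / 2 < z.re → Integrable (fun t : ℝ => Complex.exp (-z * t) * (FF a t : ℂ)) ∧
      ∫ t : ℝ, Complex.exp (-z * t) * (FF a t : ℂ) = GG χ z) :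
    (∀ x : ℝ, 0 < x → Integrable (fun t : ℝ => Real.exp (-(x * t)) * FF a t)) ∧
      (∀ z : ℂ, 0 < z.re → LFunction χ (1 / 2 + z) ≠ 0 ∧
        ∫ t : ℝ, Complex.exp (-z * t) * (FF a t : ℂ) = GG χ z) ∧
      ∀ x : ℝ, 0 < x → 0 < ∫ t : ℝ, Real.exp (-(x * t)) * FF a t := by
  obtain ⟨hd, hsg, hzf, t₀, ht₀⟩ := h
  have hχ : χ ≠ 1 := hd.ne
  have hσ2 : σ * σ = 1 := by rcases hsg with rfl | rfl <;> norm_num
  have hσabs : |σ| = 1 := by rcases hsg with rfl | rfl <;> norm_num
  have hσ2c : (σ : ℂ) * σ = 1 := by exact_mod_cast hσ2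
  -- the function Φ
  set Φ : ℝ → ℝ := fun t => stp_h4 C t - σ * FF a t with hΦ
  have hFF0 : ∀ t < 0, FF a t = 0 := fun t ht => by simp [FF, not_le.2 ht]
  have hΦm : Measurable Φ := (stp_meas_h4 C).sub (H2.const_mul σ)
  have hΦ0 : ∀ t < 0, Φ t = 0 := fun t ht => by simp [hΦ, stp_h4, not_le.2 ht, hFF0 t ht]
  set t₁ : ℝ := max t₀ 0 with ht₁
  have hΦpos : ∀ t, t₁ ≤ t → 0 ≤ Φ t := by
    intro t ht
    have h1 : t₀ ≤ t := (le_max_left _ _).trans ht
    have h2 : 0 ≤ t := (le_max_right _ _).trans ht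
    simp only [hΦ, stp_h4, h2, if_true]
    linarith [ht₀ t h1]
  have hΦA : ∀ t, |Φ t| ≤ (|C| + 1) * Real.exp (t / 2) := by
    intro t
    by_cases ht : 0 ≤ t
    · simp only [hΦ, stp_h4, ht, if_true]
      have h1 : |σ * FF a t| ≤ Real.exp (t / 2) := by rw [abs_mul, hσabs, one_mul]; exact H1 t
      have h2 : 1 ≤ Real.exp (t / 2) := Real.one_le_exp (by linarith)
      have h3 : |C - σ * FF a t| ≤ |C| + |σ * FF a t| := abs_sub _ _
      nlinarith [abs_nonneg C]
    · rw [hΦ0 t (not_le.1 ht)]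
      simp
      positivity
  set P : ℂ → ℂ := fun z => z * ((1 / 2 + z) * LFunction χ (1 / 2 + z)) with hP
  set Q : ℂ → ℂ := fun z => C * ((1 / 2 + z) * LFunction χ (1 / 2 + z)) - σ * z with hQ
  have hLd : Differentiable ℂ (fun z : ℂ => LFunction χ (1 / 2 + z)) :=
    (DirichletCharacter.differentiable_LFunction hχ).comp (by fun_prop)
  have hPd : Differentiable ℂ P := differentiable_id.mul (((differentiable_const _).add differentiable_id).mul hLd)
  have hQd : Differentiable ℂ Q :=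
    ((((differentiable_const _).add differentiable_id).mul hLd).const_mul _).sub (differentiable_id.const_mul _)
  have hone : ∀ z : ℂ, 1 / 2 ≤ z.re → LFunction χ (1 / 2 + z) ≠ 0 := by
    intro z hz
    refine DirichletCharacter.LFunction_ne_zero_of_one_le_re χ (Or.inl hχ) ?_
    simp
    linarith
  have hhalf : ∀ z : ℂ, 0 < z.re → (1 / 2 + z) ≠ 0 := by
    intro z hz h0
    have := congrArg Complex.re h0
    simp at this
    linarith
  have hne0 : ∀ z : ℂ, 0 < z.re → z ≠ 0 := by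
    rintro z hz rfl
    simp at hz
  -- value of Q / P
  have hQP : ∀ z : ℂ, 0 < z.re → LFunction χ (1 / 2 + z) ≠ 0 → Q z / P z = C / z - σ * GG χ z := by
    intro z hz hL
    have h1 := hhalf z hz
    have h2 := hne0 z hz
    have h3 : (1 / 2 + z) * LFunction χ (1 / 2 + z) ≠ 0 := mul_ne_zero h1 hL
    simp only [hP, hQ, GG]
    generalize (1 / 2 + z) * LFunction χ (1 / 2 + z) = w at h3 ⊢
    field_simp
  have hsub : ∀ z : ℂ, 0 < z.re → Integrable (fun t : ℝ => Complex.exp (-z * t) * (FF a t : ℂ)) →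
      ∫ t : ℝ, Complex.exp (-z * t) * (Φ t : ℂ) = C / z - σ * ∫ t : ℝ, Complex.exp (-z * t) * (FF a t : ℂ) := by
    intro z hz hi
    have h1 : (fun t : ℝ => Complex.exp (-z * t) * (Φ t : ℂ)) =
        fun t : ℝ => Complex.exp (-z * t) * (stp_h4 C t : ℂ) - σ * (Complex.exp (-z * t) * (FF a t : ℂ)) := by
      funext t
      simp only [hΦ]
      push_cast
      ring
    rw [h1, integral_sub (intg_cplx_h4 (stp_meas_h4 C) (stp_intg_h4 C hz)) (hi.const_mul _), stp_int_h4 C hz,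
      integral_const_mul]
  have hPQ : ∀ z : ℂ, 1 / 2 < z.re → (∫ t : ℝ, Complex.exp (-z * t) * (Φ t : ℂ)) * P z = Q z := by
    intro z hz
    obtain ⟨h1, h2⟩ := H3 z hz
    have hz0 : 0 < z.re := by linarith
    have hL := hone z hz.le
    rw [hsub z hz0 h1, h2, ← hQP z hz0 hL, div_mul_cancel₀]
    exact mul_ne_zero (hne0 z hz0) (mul_ne_zero (hhalf z hz0) hL)
  have hzero : ∀ z : ℂ, 0 < z.re → P z = 0 → Q z ≠ 0 := by
    intro z hz h0
    have h1 : (1 / 2 + z) * LFunction χ (1 / 2 + z) = 0 := by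
      simpa [hP, hne0 z hz] using h0
    simp only [hQ, h1, mul_zero, zero_sub, neg_ne_zero]
    refine mul_ne_zero ?_ (hne0 z hz)
    intro h2
    rw [h2] at hσ2c
    simp at hσ2c
  have H4' : ∀ a₀ : ℝ, 0 ≤ a₀ → (∀ x : ℝ, a₀ < x → P x ≠ 0) →
      (∀ x : ℝ, a₀ < x → Integrable (fun t : ℝ => Real.exp (-(x * t)) * Φ t)) ∧
        ∀ z : ℂ, a₀ < z.re → P z ≠ 0 ∧ ∫ t : ℝ, Complex.exp (-z * t) * (Φ t : ℂ) = Q z / P z :=
    fun a₀ h0 h1 => landau_abs hΦm hΦ0 hΦpos hΦA hPd hQd hPQ hzero h0 h1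
  -- no real zero
  have hreal : ∀ x : ℝ, 0 < x → LFunction χ (1 / 2 + x) ≠ 0 := by
    rcases hsg with hs | hs
    · intro x₁ hx₁ hx₁0
      have hx₁h : x₁ < 1 / 2 := by
        by_contra hcon
        exact hone (x₁ : ℂ) (by simpa using not_lt.1 hcon) hx₁0
      have hLc : Continuous (fun x : ℝ => LFunction χ (1 / 2 + x)) := hLd.continuous.comp Complex.continuous_ofReal
      have hcomp : IsCompact (Icc x₁ (1 / 2) ∩ {x : ℝ | LFunction χ (1 / 2 + x) = 0}) :=
        isCompact_Icc.inter_right (isClosed_eq hLc continuous_const)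
      obtain ⟨a₀, ha₀⟩ := hcomp.exists_isGreatest ⟨x₁, ⟨le_refl _, hx₁h.le⟩, hx₁0⟩
      have ha₀0 : LFunction χ (1 / 2 + a₀) = 0 := ha₀.1.2
      have ha₀p : 0 < a₀ := lt_of_lt_of_le hx₁ ha₀.1.1.1
      have hgt : ∀ x : ℝ, a₀ < x → LFunction χ (1 / 2 + x) ≠ 0 := by
        intro x hx hx0
        by_cases hxh : x ≤ 1 / 2
        · exact absurd (ha₀.2 ⟨⟨ha₀.1.1.1.trans hx.le, hxh⟩, hx0⟩) (not_le.2 hx)
        · exact hone (x : ℂ) (by simpa using (not_le.1 hxh).le) hx0
      have hPx : ∀ x : ℝ, a₀ < x → P x ≠ 0 := by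
        intro x hx
        have hxp : 0 < (x : ℂ).re := by simpa using ha₀p.trans hx
        exact mul_ne_zero (hne0 _ hxp) (mul_ne_zero (hhalf _ hxp) (hgt x hx))
      obtain ⟨h1, h2⟩ := H4' a₀ ha₀p.le hPx
      have hval : ∀ x : ℝ, a₀ < x → ((∫ t : ℝ, Real.exp (-(x * t)) * Φ t : ℝ) : ℂ) = C / x - GG χ x := by
        intro x hx
        have hxp : 0 < (x : ℂ).re := by simpa using ha₀p.trans hx
        have h3 := (h2 (x : ℂ) (by simpa using hx)).2
        rw [int_real_h4, hQP _ hxp (hgt x hx), hs] at h3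
        simpa using h3
      have hGr : ∀ x : ℝ, a₀ < x → GG χ x = ((C / x - ∫ t : ℝ, Real.exp (-(x * t)) * Φ t : ℝ) : ℂ) := by
        intro x hx
        have h3 := hval x hx
        push_cast at h3 ⊢
        rw [h3]
        ring
      have him : ∀ x : ℝ, a₀ < x → (GG χ x).im = 0 := by
        intro x hx
        rw [hGr x hx]
        exact Complex.ofReal_im _
      have hpos := GG_pos_h4 hχ ha₀p.le (by linarith [ha₀.1.1.2]) hgt him
      -- lower bound for the integral
      set bd : ℝ → ℝ := indicator (Icc 0 t₁) (fun t => (|C| + 1) * Real.exp (t / 2)) with hbd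
      have hbdi : Integrable bd := by
        rw [hbd, integrable_indicator_iff measurableSet_Icc]
        exact Continuous.integrableOn_Icc (by fun_prop)
      have hlow : ∀ x : ℝ, a₀ < x → -(∫ t : ℝ, bd t) ≤ ∫ t : ℝ, Real.exp (-(x * t)) * Φ t := by
        intro x hx
        rw [← integral_neg]
        refine integral_mono hbdi.neg (h1 x hx) fun t => ?_
        have hx0 : 0 < x := ha₀p.trans hx
        simp only [hbd]
        by_cases ht : 0 ≤ t
        · by_cases ht' : t ≤ t₁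
          · rw [indicator_of_mem (show t ∈ Icc 0 t₁ from ⟨ht, ht'⟩)]
            have h5 : Real.exp (-(x * t)) ≤ 1 := Real.exp_le_one_iff.2 (by nlinarith)
            have h6 := hΦA t
            have h7 := neg_abs_le (Φ t)
            have h8 : 0 < Real.exp (-(x * t)) := Real.exp_pos _
            nlinarith [abs_nonneg (Φ t)]
          · rw [indicator_of_notMem (fun hm => ht' hm.2), neg_zero]
            exact mul_nonneg (Real.exp_pos _).le (hΦpos t (not_le.1 ht').le)
        · rw [indicator_of_notMem (fun hm => ht hm.1), neg_zero, hΦ0 t (not_le.1 ht), mul_zero]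
      set K : ℝ := |C| / a₀ + ∫ t : ℝ, bd t with hK
      have hle : ∀ x : ℝ, a₀ < x → ‖GG χ x‖ ≤ K := by
        intro x hx
        have h3 := hpos x hx
        have h4 := hlow x hx
        have hx0 : 0 < x := ha₀p.trans hx
        rw [hGr x hx] at h3 ⊢
        rw [Complex.ofReal_re] at h3
        rw [Complex.norm_real, Real.norm_of_nonneg h3.le]
        have h5 : C / x ≤ |C| / a₀ := by
          calc C / x ≤ |C| / x := by gcongr; exact le_abs_self C
            _ ≤ |C| / a₀ := by gcongr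
        linarith
      have hmul : ∀ x : ℝ, a₀ < x → 1 ≤ K * ‖(1 / 2 + (x : ℂ)) * LFunction χ (1 / 2 + x)‖ := by
        intro x hx
        have hxp : 0 < (x : ℂ).re := by simpa using ha₀p.trans hx
        have h3 : (1 / 2 + (x : ℂ)) * LFunction χ (1 / 2 + x) ≠ 0 := mul_ne_zero (hhalf _ hxp) (hgt x hx)
        have h4 : ‖GG χ x‖ * ‖(1 / 2 + (x : ℂ)) * LFunction χ (1 / 2 + x)‖ = 1 := by
          rw [← norm_mul, GG, one_div_mul_cancel h3, norm_one]
        rw [← h4]
        exact mul_le_mul_of_nonneg_right (hle x hx) (norm_nonneg _)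
      have hcont : Continuous (fun x : ℝ => K * ‖(1 / 2 + (x : ℂ)) * LFunction χ (1 / 2 + x)‖) := by
        fun_prop
      have hlim : Tendsto (fun x : ℝ => K * ‖(1 / 2 + (x : ℂ)) * LFunction χ (1 / 2 + x)‖) (𝓝[>] a₀) (𝓝 0) := by
        have h3 := (hcont.tendsto a₀).mono_left (nhdsWithin_le_nhds (s := Ioi a₀))
        rw [ha₀0] at h3
        simpa using h3
      have h9 : (1 : ℝ) ≤ 0 := ge_of_tendsto hlim (eventually_of_mem self_mem_nhdsWithin fun x hx => hmul x hx)
      linarith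
    · intro x hx
      by_cases hxh : 1 / 2 ≤ x
      · exact hone (x : ℂ) (by simpa using hxh)
      · have h1 := hzf hs (1 / 2 + x) (by linarith) (by linarith)
        push_cast at h1
        exact h1
  have hPx : ∀ x : ℝ, 0 < x → P x ≠ 0 := by
    intro x hx
    have hxp : 0 < (x : ℂ).re := by simpa using hx
    exact mul_ne_zero (hne0 _ hxp) (mul_ne_zero (hhalf _ hxp) (hreal x hx))
  obtain ⟨h1, h2⟩ := H4' 0 le_rfl hPx
  have hFΦ : ∀ t, FF a t = σ * (stp_h4 C t - Φ t) := by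
    intro t
    simp only [hΦ, sub_sub_cancel]
    rw [← mul_assoc, hσ2, one_mul]
  have hFi : ∀ x : ℝ, 0 < x → Integrable (fun t : ℝ => Real.exp (-(x * t)) * FF a t) := by
    intro x hx
    have h3 := ((stp_intg_h4 C hx).sub (h1 x hx)).const_mul σ
    refine h3.congr (ae_of_all _ fun t => ?_)
    simp only [Pi.sub_apply]
    rw [hFΦ t]
    ring
  have hFc : ∀ z : ℂ, 0 < z.re → LFunction χ (1 / 2 + z) ≠ 0 ∧
      ∫ t : ℝ, Complex.exp (-z * t) * (FF a t : ℂ) = GG χ z := by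
    intro z hz
    obtain ⟨h3, h4⟩ := h2 z hz
    have hL : LFunction χ (1 / 2 + z) ≠ 0 := by
      intro h0
      apply h3
      simp only [hP]
      rw [h0, mul_zero, mul_zero]
    refine ⟨hL, ?_⟩
    rw [hsub z hz (intg_cplx_h4 H2 (hFi z.re hz)), hQP z hz hL] at h4
    have h5 : (σ : ℂ) * ∫ t : ℝ, Complex.exp (-z * t) * (FF a t : ℂ) = σ * GG χ z := sub_right_injective h4
    have h6 : (σ : ℂ) ≠ 0 := by
      intro h0
      rw [h0] at hσ2c
      simp at hσ2c
    exact mul_left_cancel₀ h6 h5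
  refine ⟨hFi, hFc, ?_⟩
  have hG : ∀ x : ℝ, 0 < x → GG χ x = ((∫ t : ℝ, Real.exp (-(x * t)) * FF a t : ℝ) : ℂ) := by
    intro x hx
    rw [← (hFc (x : ℂ) (by simpa using hx)).2, int_real_h4]
  intro x hx
  have h3 := GG_pos_h4 hχ le_rfl (by norm_num) hreal (fun y hy => by rw [hG y hy]; exact Complex.ofReal_im _) x hx
  rw [hG x hx, Complex.ofReal_re] at h3
  exact h3

end Pool.Agent.QT
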